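import Mathlib
import Pool.Agent.H749Z.Bud.Defs
import Pool.Agent.H749Z.Bud.Main

set_option autoImplicit false

namespace Pool.Agent.Results.MP_8d021f_pr.ASmallBudget

open H749Z.Bud Filter

/-- There is a bounded-degree monotone increasing graph property whose hitting time is a.a.s. of
order `n`, and a successful `(t, b)`-strategy for it with `t = Θ(n)` and `b = o(t / log n)`;
moreover `b ≤ t^(2/3)` for large `n`. -/
theorem result : ∃ P : Property, IsoClosed P ∧ Increasing P ∧ BoundedDegree P ∧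
    (∃ c C : ℝ, 0 < c ∧ 0 < C ∧
      Aas fun n σ => c * n ≤ hitting (P n) σ ∧ hitting (P n) σ ≤ C * n) ∧
    ∃ (t b : ℕ → ℕ) (S : (n : ℕ) → Strategy n),
      ((fun n => (t n : ℝ)) =Θ[atTop] fun n => (n : ℝ)) ∧
      ((fun n => (b n : ℝ)) =o[atTop] fun n => (t n : ℝ) / Real.log n) ∧
      (∀ᶠ n in atTop, b n ^ 3 ≤ t n ^ 2) ∧
      (∀ n σ, (bought (S n) σ (t n)).ncard ≤ b n) ∧
      Aas fun n σ => graphOf σ (bought (S n) σ (t n)) ∈ P n :=
  main

end Pool.Agent.Results.MP_8d021f_pr.ASmallBudget
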